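import Mathlib
import Pool.Agent.W2helper76.DP.Rel

/-!
# Deligne's conjecture for the Artin twists of a motive: only the field of rational numbers and the
totally complex fields matter

The twist of the motive `M` over `ℚ` by an Artin character `χ` of a Galois extension `L / K` of
number fields is `R_{K/ℚ}(M_K ⊗ χ)`. If `M` is critical of weight `≤ -3` and `F⁺ = F⁻` (for
instance if the weight is odd), then all twists are critical, with convergent Euler products at
`s = 0`. The other definitions are in `Pool.Agent.W2helper76.DP.Def` and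
`Pool.Agent.K4H74.SC.Core`.
-/

set_option autoImplicit false

namespace Pool.Agent.Results.MP_b696eb_nt.ArtinTwists

open NumberField Pool.Agent.K4H74.SK Pool.Agent.W2helper76.DP Pool.Agent.K4H34.AL

/-- The data of a motive `M` over `ℚ` which enter Deligne's conjecture for its Artin twists: the
weight, the rank, a finite set which contains the primes of bad reduction, the eigenvalues of the
(geometric) Frobenius at the other primes, and Deligne's periods `c⁺(M)` and `c⁻(M)`. -/
structure Motive where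
  /-- the weight -/
  weight : ℤ
  /-- the rank -/
  rank : ℕ
  /-- the bad primes -/
  bad : Finset ℕ
  /-- the eigenvalues of the Frobenius at `p` -/
  eig : ℕ → Fin rank → ℂ
  /-- the period `c⁺(M)` -/
  cplus : ℂ
  /-- the period `c⁻(M)` -/
  cminus : ℂ
  norm_eig : ∀ p : ℕ, p.Prime → p ∉ bad → ∀ i, ‖eig p i‖ = (p : ℝ) ^ ((weight : ℝ) / 2)
  cplus_ne : cplus ≠ 0
  cminus_ne : cminus ≠ 0

/-- `l` is the logarithm of the L-function of `M_K ⊗ χ` (without the Euler factors over the bad
primes) at `s`. -/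
def IsLog (M : Motive) {E : Ext} (χ : G E → ℂ) (s l : ℂ) : Prop :=
  HasSum (twistTerm (frobTrace M.bad M.eig) χ s) l

/-- `v` is the quotient of the value at `s = 0` of the L-function of `M_K ⊗ χ` (without the Euler
factors over the bad primes) and the period `c⁺(M)^a c⁻(M)^b`, where `a` and `b` are the
multiplicities of the eigenvalues `1` and `-1` of the complex conjugation on the Betti realisation
of the Artin motive `R_{K/ℚ}[χ]`. If `F⁺ = F⁻`, then this is Deligne's period of
`R_{K/ℚ}(M_K ⊗ χ)` up to the power, with the exponent `rank M / 2`, of the period (an algebraic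
number) of the determinant of the Artin motive `R_{K/ℚ}[χ]`. -/
def IsQuotient (M : Motive) {E : Ext} (χ : G E → ℂ) (v : ℂ) : Prop :=
  ∃ (a b : ℕ) (l : ℂ), artinRank χ = a + b ∧ conjTrace χ = a - b ∧ IsLog M χ 0 l ∧
    v = Complex.exp l / (M.cplus ^ a * M.cminus ^ b)

/-- Deligne's conjecture for `M_K ⊗ χ`, up to roots of unity: for the quotient `v(χ)` of the
L-value and the period and every automorphism `σ` of `ℂ`, `σ(v(χ)) / v(σ χ)` is a root of unity. -/
def Deligne (M : Motive) {E : Ext} (χ : G E → ℂ) : Prop :=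
  ∀ σ : ℂ ≃+* ℂ, ∃ (v v' : ℂ) (n : ℕ), IsQuotient M χ v ∧ IsQuotient M (fun g => σ (χ g)) v' ∧
    0 < n ∧ (σ v) ^ n = v' ^ n

/-- the data of the motive -/
noncomputable def Motive.dat (M : Motive) (s : ℂ) (hs : 1 + (M.weight : ℝ) / 2 < s.re) : Dat where
  W := frobTrace M.bad M.eig
  w := (M.weight : ℝ) / 2
  B := M.rank
  s := s
  hB := Nat.cast_nonneg _
  hW := frobTrace_bound M.norm_eig
  hs := by linarith
  cp := Units.mk0 M.cplus M.cplus_ne
  cm := Units.mk0 M.cminus M.cminus_ne

lemma Motive.zero_re (M : Motive) (hM : M.weight ≤ -3) :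
    1 + (M.weight : ℝ) / 2 < (0 : ℂ).re := by
  have h : (M.weight : ℝ) ≤ -3 := by exact_mod_cast hM
  rw [Complex.zero_re]
  linarith

/-- the data at `0` -/
noncomputable abbrev Motive.dat0 (M : Motive) (hM : M.weight ≤ -3) : Dat := M.dat 0 (M.zero_re hM)

lemma IsQuotient.unique {M : Motive} {E : Ext} {χ : G E → ℂ} {v v' : ℂ} (h : IsQuotient M χ v)
    (h' : IsQuotient M χ v') : v = v' := by
  obtain ⟨a, b, l, e1, e2, hl, rfl⟩ := h
  obtain ⟨a', b', l', e1', e2', hl', rfl⟩ := h'
  rw [e1] at e1'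
  rw [e2] at e2'
  have e3 : a = a' := by
    have : (a : ℂ) = a' := by linear_combination (e1' + e2') / 2
    exact_mod_cast this
  have e4 : b = b' := by
    have : (b : ℂ) = b' := by linear_combination (e1' - e2') / 2
    exact_mod_cast this
  rw [e3, e4, HasSum.unique hl hl']

lemma exists_quotient {M : Motive} (hM : M.weight ≤ -3) {E : Ext} {χ : G E → ℂ} (hχ : IsChr χ) :
    ∃ v, IsQuotient M χ v := by
  obtain ⟨a, b, h1, h2⟩ := exists_ab E.K E.L (isChr_iff.mp hχ)
  exact ⟨_, a, b, _, h1, (conjTrace_eq χ).trans h2, twist_hasSum (M.dat0 hM) χ, rfl⟩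

lemma deligne_iff {M : Motive} (hM : M.weight ≤ -3) {E : Ext} {χ : G E → ℂ} (hχ : IsChr χ) :
    Deligne M χ ↔ ∀ σ : ℂ ≃+* ℂ, (dInv (M.dat0 hM) (M.dat0 hM) σ).val E.K E.L χ = 1 := by
  refine forall_congr' fun σ => ?_
  rw [defect_iff hχ]
  have hσ1 : artinRank (fun g => σ (χ g)) = σ (artinRank χ) := by
    rw [artinRank, artinRank, map_mul, map_natCast]
  have hσ2 : conjTrace (fun g => σ (χ g)) = σ (conjTrace χ) := conjTrace_sigma σ χ
  constructor
  · rintro ⟨v, v', n, ⟨a, b, l, e1, e2, hl, rfl⟩, ⟨a', b', l', e1', e2', hl', rfl⟩, hn, h⟩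
    rw [hσ1, e1, map_add, map_natCast, map_natCast] at e1'
    rw [hσ2, e2, map_sub, map_natCast, map_natCast] at e2'
    have e3 : a = a' := by
      have : (a : ℂ) = a' := by linear_combination (e1' + e2') / 2
      exact_mod_cast this
    have e4 : b = b' := by
      have : (b : ℂ) = b' := by linear_combination (e1' - e2') / 2
      exact_mod_cast this
    subst e3 e4
    exact ⟨a, b, n, l, l', hn, e1, e2, hl, hl', h⟩
  · rintro ⟨a, b, n, l, l', hn, e1, e2, hl, hl', h⟩
    refine ⟨_, _, n, ⟨a, b, l, e1, e2, hl, rfl⟩, ⟨a, b, l', ?_, ?_, hl', rfl⟩, hn, h⟩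
    · rw [hσ1, e1, map_add, map_natCast, map_natCast]
    · rw [hσ2, e2, map_sub, map_natCast, map_natCast]

/-- (1) For every motive `M` of weight `w` and every Artin character `χ` the series for the
logarithm of the L-function of `M_K ⊗ χ` converges for `Re s > w / 2 + 1`; for `w ≤ -3` there is
exactly one quotient `v(M, χ)` of the L-value at `0` and the period.

(2) Let `χ` be a character of `Gal(L / K)`, and let `t` be the sum of the numbers `χ(c_v)` over the
real places `v` of `K`, where `c_v` is a complex conjugation over `v`. There are an integer `n ≥ 1`,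
faithful linear characters `ψ_i` of `Gal(L_i / K_i)` with totally complex fields `K_i` and integers
`k_i`, such that for all motives `M`
`L(M_K ⊗ χ, s)^n = L(M, s)^(n t) ∏ L(M_{K_i} ⊗ ψ_i, s)^(k_i)` for `Re s > w / 2 + 1` (for the
logarithms), and, if `w ≤ -3`, `v(M, χ)^n = v(M, 1)^(n t) ∏ v(M, ψ_i)^(k_i)`.

(3) Let `M` be of weight `≤ -3`. Deligne's conjecture, up to roots of unity, holds for `M_K ⊗ χ`
for all number fields `K`, all finite Galois extensions `L / K` and all characters `χ` of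
`Gal(L / K)` if and only if it holds for the motive `M` over `ℚ` and for `M_K ⊗ ψ` for all totally
complex number fields `K` and all faithful linear characters `ψ` of the Galois groups of the
(cyclic) extensions `L / K`. -/
theorem result :
    -- (1)
    (∀ (M : Motive) (E : Ext) (χ : G E → ℂ), IsChr χ →
      (∀ s : ℂ, 1 + (M.weight : ℝ) / 2 < s.re → ∃ l, IsLog M χ s l) ∧
      (M.weight ≤ -3 → ∃! v : ℂ, IsQuotient M χ v)) ∧
    -- (2)
    (∀ (E : Ext) (χ : G E → ℂ), IsChr χ → ∃ (t : ℤ) (n : ℕ), conjTrace χ = t ∧ 0 < n ∧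
      ∃ (r : ℕ) (x : Fin r → Pair) (k : Fin r → ℤ),
        (∀ i, IsTotallyComplex (x i).1.K ∧
          ∃ ψ : G (x i).1 →* ℂˣ, Function.Injective ψ ∧ (x i).2 = lin ψ) ∧
        ∀ M : Motive,
          (∀ s : ℂ, 1 + (M.weight : ℝ) / 2 < s.re → ∀ (l l₁ : ℂ) (l' : Fin r → ℂ),
            IsLog M χ s l → IsLog M (E := ⟨ℚ, ℚ⟩) (fun _ => 1) s l₁ →
            (∀ i, IsLog M (x i).2 s (l' i)) → n * l = n * t * l₁ + ∑ i, k i * l' i) ∧
          (M.weight ≤ -3 → ∀ (v v₁ : ℂ) (v' : Fin r → ℂ), IsQuotient M χ v →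
            IsQuotient M (E := ⟨ℚ, ℚ⟩) (fun _ => 1) v₁ → (∀ i, IsQuotient M (x i).2 (v' i)) →
            v ^ n = v₁ ^ (n * t) * ∏ i, v' i ^ k i)) ∧
    -- (3)
    (∀ M : Motive, M.weight ≤ -3 →
      ((∀ (E : Ext) (χ : G E → ℂ), IsChr χ → Deligne M χ) ↔
        (Deligne M (E := ⟨ℚ, ℚ⟩) (fun _ => 1) ∧
          ∀ (E : Ext) (ψ : G E →* ℂˣ), IsTotallyComplex E.K → Function.Injective ψ →
            Deligne M (lin ψ)))) := by
  refine ⟨fun M E χ hχ => ⟨fun s hs => ⟨_, twist_hasSum (M.dat s hs) χ⟩, fun hM => ?_⟩, ?_, ?_⟩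
  · obtain ⟨v, hv⟩ := exists_quotient hM hχ
    exact ⟨v, hv, fun v' hv' => hv'.unique hv⟩
  · intro E χ hχ
    obtain ⟨a, b, h1, h2⟩ := exists_ab E.K E.L (isChr_iff.mp hχ)
    have ht : conjTrace χ = (((a : ℤ) - b : ℤ) : ℂ) := by
      rw [conjTrace_eq, h2]
      push_cast
      rfl
    obtain ⟨n, hn, r, x, k, hx, h⟩ := rel_complex' univInv hχ ht
    refine ⟨(a : ℤ) - b, n, ht, hn, r, x, k, ?_, fun M => ⟨?_, ?_⟩⟩
    · intro i
      obtain ⟨E', ψ, h3, h4, h5⟩ := hx i
      rw [h5]
      exact ⟨h3, ψ, h4, rfl⟩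
    · intro s hs l l₁ l' hl hl₁ hl'
      have h3 := rel_log (M.dat s hs) h (l' := (Fin.cons (α := fun _ => ℂ) l₁ l' :
        Fin (r + 1) → ℂ)) hl (fun i => by
          refine Fin.cases ?_ (fun j => ?_) i
          · exact hl₁
          · exact hl' j)
      rw [Fin.sum_univ_succ] at h3
      simp only [Fin.cons_zero, Fin.cons_succ] at h3
      rw [h3]
      push_cast
      rfl
    · intro hM v v₁ v' hv hv₁ hv'
      have h3 := rel_quot (M.dat0 hM) h (v' := (Fin.cons (α := fun _ => ℂ) v₁ v' :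
        Fin (r + 1) → ℂ)) hv (fun i => by
          refine Fin.cases ?_ (fun j => ?_) i
          · exact hv₁
          · exact hv' j)
      rw [Fin.prod_univ_succ] at h3
      simp only [Fin.cons_zero, Fin.cons_succ] at h3
      exact h3
  · intro M hM
    constructor
    · intro h
      exact ⟨h _ _ (Pool.Agent.W2helper76.DP.isChr_one _), fun E ψ _ _ => h E _ (isChr_lin ψ)⟩
    · rintro ⟨h1, h2⟩ E χ hχ
      rw [deligne_iff hM hχ]
      intro σ
      refine main_dInv ?_ ?_ E.K E.L (isChr_iff.mp hχ)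
      · intro K L _ _ _ _ _ _ hK ψ hψ
        exact (deligne_iff hM (E := ⟨K, L⟩) (isChr_lin (E := ⟨K, L⟩) ψ)).mp
          (h2 ⟨K, L⟩ ψ hK hψ) σ
      · exact (deligne_iff hM (E := ⟨ℚ, ℚ⟩) (Pool.Agent.W2helper76.DP.isChr_one _)).mp h1 σ

end Pool.Agent.Results.MP_b696eb_nt.ArtinTwists
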