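import Mathlib
import Pool.Agent.W2helper76.DP.Rel
import Pool.Agent.W2helper76.DP.Rat

/-!
# Deligne's conjecture for the Artin twists of a motive of odd weight with coefficients: only the
class group characters of the totally complex fields and the totally odd characters matter

The twist of the motive `M` over `ℚ` with coefficients in `F` by an Artin character `χ` of a Galois
extension `L / K` of number fields is `R_{K/ℚ}(M_K ⊗ χ)`. The weight `w` is odd, so `F⁺ = F⁻`, and
the twists have the same critical integers `s₀` as `M`; here `s₀ > (w + 1) / 2`, so the Euler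
products converge at `s₀`. The other definitions are in `Pool.Agent.W2helper76.DP.Def` and
`Pool.Agent.K4H74.SC.Core`.
-/

set_option autoImplicit false

namespace Pool.Agent.Results.MP_cd171c_nt.ClassGroupTwists

open NumberField Pool.Agent.K4H74 Pool.Agent.K4H74.SK Pool.Agent.W2helper76.DP
  Pool.Agent.K4H34.AL Pool.Agent.K4H77

/-- The data of a motive `M` over `ℚ` of odd weight with coefficients in the number field `F` which
enter Deligne's conjecture for its Artin twists at the critical integer `s₀`, which is larger than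
the centre `(w + 1) / 2`: the weight, the rank over `F`, a finite set which contains the primes of
bad reduction, the eigenvalues of the (geometric) Frobenius at the other primes, and Deligne's
periods `c⁺(M, s₀)` and `c⁻(M, s₀)`, the last three for every complex embedding `τ` of `F`. -/
structure Motive (F : Type) [Field F] where
  /-- the weight -/
  weight : ℤ
  /-- the rank -/
  rank : ℕ
  /-- the critical integer -/
  s₀ : ℤ
  /-- the bad primes -/
  bad : Finset ℕ
  /-- the eigenvalues of the Frobenius at `p` -/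
  eig : (F →+* ℂ) → ℕ → Fin rank → ℂ
  /-- the period `c⁺(M, s₀)` -/
  cplus : (F →+* ℂ) → ℂ
  /-- the period `c⁻(M, s₀)` -/
  cminus : (F →+* ℂ) → ℂ
  odd_weight : Odd weight
  right : weight + 1 < 2 * s₀
  norm_eig : ∀ (τ : F →+* ℂ) (p : ℕ), p.Prime → p ∉ bad → ∀ i,
    ‖eig τ p i‖ = (p : ℝ) ^ ((weight : ℝ) / 2)
  cplus_ne : ∀ τ, cplus τ ≠ 0
  cminus_ne : ∀ τ, cminus τ ≠ 0

variable {F : Type} [Field F]

/-- `l` is the logarithm of the L-function of `M_K ⊗ χ` (without the Euler factors over the bad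
primes) for the embedding `τ` of the coefficients, at the point `s₀`. -/
def IsLog (M : Motive F) (τ : F →+* ℂ) {E : Ext} (χ : G E → ℂ) (l : ℂ) : Prop :=
  HasSum (twistTerm (frobTrace M.bad (M.eig τ)) χ M.s₀) l

/-- `v` is, for the embedding `τ` of the coefficients, the quotient of the value at `s₀` of the
L-function of `M_K ⊗ χ` (without the Euler factors over the bad primes) and the period
`c⁺(M, s₀)^a c⁻(M, s₀)^b`, where `a` and `b` are the multiplicities of the eigenvalues `1` and `-1`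
of the complex conjugation on the Betti realisation of the Artin motive `R_{K/ℚ}[χ]`. This is
Deligne's period of `R_{K/ℚ}(M_K ⊗ χ)` up to the power, with the exponent `rank M / 2`, of the
period (an algebraic number) of the determinant of the Artin motive `R_{K/ℚ}[χ]`. -/
def IsQuotient (M : Motive F) (τ : F →+* ℂ) {E : Ext} (χ : G E → ℂ) (v : ℂ) : Prop :=
  ∃ (a b : ℕ) (l : ℂ), artinRank χ = a + b ∧ conjTrace χ = a - b ∧ IsLog M τ χ l ∧
    v = Complex.exp l / (M.cplus τ ^ a * M.cminus τ ^ b)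

/-- Deligne's conjecture for `M_K ⊗ χ` at `s₀`, up to roots of unity: for the quotients `v(τ, χ)` of
the L-value and the period and every automorphism `σ` of `ℂ`, `σ(v(τ, χ)) / v(σ τ, σ χ)` is a root
of unity. -/
def Deligne (M : Motive F) {E : Ext} (χ : G E → ℂ) : Prop :=
  ∀ (τ : F →+* ℂ) (σ : ℂ ≃+* ℂ), ∃ (v v' : ℂ) (n : ℕ), IsQuotient M τ χ v ∧
    IsQuotient M ((σ : ℂ →+* ℂ).comp τ) (fun g => σ (χ g)) v' ∧ 0 < n ∧ (σ v) ^ n = v' ^ n

/-- The decomposition group of the ideal `P` of the integers of `L`. -/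
def decompGroup {E : Ext} (P : Ideal (𝓞 E.L)) : Set (G E) :=
  {g | ∀ x y : 𝓞 E.L, (y : E.L) = emb g x → (y ∈ P ↔ x ∈ P)}

/-- The inertia group of the ideal `P` of the integers of `L`. -/
def inertiaGroup {E : Ext} (P : Ideal (𝓞 E.L)) : Set (G E) :=
  {g | ∀ x y : 𝓞 E.L, (y : E.L) = emb g x → y - x ∈ P}

/-- `L / K` is unramified at all finite primes, and the primes above `m` split completely. -/
def UnramifiedSplit (m : ℕ) (E : Ext) : Prop :=
  ∀ P : Ideal (𝓞 E.L), P.IsMaximal → (∀ g ∈ inertiaGroup P, g = 1) ∧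
    ((m : 𝓞 E.L) ∈ P → ∀ g ∈ decompGroup P, g = 1)

/-- The linear character `ψ` takes the value `-1` at all complex conjugations. -/
def TotallyOdd {E : Ext} (ψ : G E →* ℂˣ) : Prop := ∀ t : G E, IsCC t → ψ t = -1

/-- The basic characters: the trivial character of the Galois group of `ℚ / ℚ` (with the twist `M`
itself), the totally odd linear characters of the extensions of the totally real fields, and the
faithful linear characters, of order dividing `D` (no condition if `D = 0`), of the (cyclic)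
extensions `L / K`, `K` totally complex, which are unramified at all finite primes and in which the
primes above `m` split completely (they are characters of the ideal class group of `K`; the trivial
characters of the totally complex fields are among them). -/
inductive Basic (m D : ℕ) : Pair → Prop
  | rational : Basic m D ⟨⟨ℚ, ℚ⟩, fun _ => 1⟩
  | odd (E : Ext) (ψ : G E →* ℂˣ) : IsTotallyReal E.K → TotallyOdd ψ → Basic m D ⟨E, lin ψ⟩
  | unramified (E : Ext) (ψ : G E →* ℂˣ) : IsTotallyComplex E.K → UnramifiedSplit m E →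
      Function.Injective ψ → ψ ^ D = 1 → Basic m D ⟨E, lin ψ⟩

lemma mem_decomp {E : Ext} {P : Ideal (𝓞 E.L)} (g : G E) :
    g ∈ decompGroup P ↔ (show E.L ≃ₐ[E.K] E.L from g) ∈ SL.decomp E.K P := by
  constructor
  · intro h x
    exact h x _ rfl
  · intro h x y hy
    have h1 : y = SL.gi (show E.L ≃ₐ[E.K] E.L from g) x := RingOfIntegers.ext hy
    rw [h1]
    exact h x

lemma mem_inertia {E : Ext} {P : Ideal (𝓞 E.L)} (g : G E) :
    g ∈ inertiaGroup P ↔ (show E.L ≃ₐ[E.K] E.L from g) ∈ SL.inertia E.K P := by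
  constructor
  · intro h x
    exact h x _ rfl
  · intro h x y hy
    have h1 : y = SL.gi (show E.L ≃ₐ[E.K] E.L from g) x := RingOfIntegers.ext hy
    rw [h1]
    exact h x

lemma Basic.isChr {m D : ℕ} {x : Pair} (h : Basic m D x) : IsChr x.2 := by
  cases h with
  | rational => exact Pool.Agent.W2helper76.DP.isChr_one _
  | odd E ψ _ _ => exact isChr_lin ψ
  | unramified E ψ _ _ _ _ => exact isChr_lin ψ

/-- the trivial characters of the totally complex fields are basic -/
lemma Basic.trivial {m D : ℕ} (K : Type) [Field K] [NumberField K] (hK : IsTotallyComplex K) :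
    Basic m D ⟨⟨K, K⟩, fun _ => 1⟩ := by
  have h1 : ∀ g : G (⟨K, K⟩ : Ext), g = 1 := by
    intro g
    apply AlgEquiv.ext
    intro x
    exact (show K ≃ₐ[K] K from g).commutes x
  have h2 : (fun _ : G (⟨K, K⟩ : Ext) => (1 : ℂ)) = lin (1 : G (⟨K, K⟩ : Ext) →* ℂˣ) := by
    funext g
    simp [lin]
  rw [h2]
  refine Basic.unramified ⟨K, K⟩ 1 hK ?_ ?_ ?_
  · intro P _
    exact ⟨fun g _ => h1 g, fun _ g _ => h1 g⟩
  · intro g g' _
    rw [h1 g, h1 g']
  · apply MonoidHom.ext
    intro g
    rw [MonoidHom.pow_apply, MonoidHom.one_apply, one_pow]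

/-- the general principle for invariants with values in torsion-free groups -/
theorem basic_principle {M : Type} [CommGroup M] (A : ST.ArtinInvariant M)
    (htf : ∀ (x : M) (n : ℕ), 0 < n → x ^ n = 1 → x = 1) {m : ℕ} (hm : m ≠ 0) {e : ℕ}
    (hb : ∀ x : Pair, Basic m (2 * e) x → pval A x = 1) {E : Ext} {χ : G E → ℂ} (hχ : IsChr χ)
    (N : Type) [Field N] [NumberField N] [IsGalois ℚ N] [Algebra E.L N]
    (heN : ∀ y : N ≃ₐ[ℚ] N, y ^ e = 1) : pval A ⟨E, χ⟩ = 1 := by
  have i1 : ST.TrivOne A := triv_one htf (fun K _ _ hK => hb _ (Basic.trivial K hK))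
    (hb _ Basic.rational)
  have i2 : Pool.Agent.K4H34.NC.TrivSplitLinE A m (2 * e) := by
    intro K L _ _ _ _ _ _ hK hin hde ψ hψ hψe
    exact hb _ (Basic.unramified ⟨K, L⟩ ψ hK (fun P hP =>
      ⟨fun g hg => hin P hP g ((mem_inertia (E := ⟨K, L⟩) g).mp hg),
        fun hm g hg => hde P hP hm g ((mem_decomp (E := ⟨K, L⟩) g).mp hg)⟩) hψ hψe)
  have i3 : ST.TrivOdd A := by
    intro K L _ _ _ _ _ _ hK ψ hψ
    refine hb _ (Basic.odd ⟨K, L⟩ ψ hK ?_)
    rintro t ⟨φ, hφ⟩
    refine hψ φ t ?_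
    ext x
    exact (hφ x).symm
  obtain ⟨n, hn, -, h5⟩ := Pool.Agent.K4H34.NC.main_order hm i1 i3 E.K E.L N heN i2
    (isChr_iff.mp hχ)
  exact htf _ n hn h5

/-- the data of the motive -/
noncomputable def Motive.dat (M : Motive F) (τ : F →+* ℂ) : Dat where
  W := frobTrace M.bad (M.eig τ)
  w := (M.weight : ℝ) / 2
  B := M.rank
  s := M.s₀
  hB := Nat.cast_nonneg _
  hW := frobTrace_bound (M.norm_eig τ)
  hs := by
    obtain ⟨k, hk⟩ := M.odd_weight
    have h1 := M.right
    have h2 : M.weight + 3 ≤ 2 * M.s₀ := by omega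
    have h3 : (M.weight : ℝ) + 3 ≤ 2 * (M.s₀ : ℝ) := by exact_mod_cast h2
    rw [Complex.intCast_re]
    linarith
  cp := Units.mk0 (M.cplus τ) (M.cplus_ne τ)
  cm := Units.mk0 (M.cminus τ) (M.cminus_ne τ)

lemma IsQuotient.unique {M : Motive F} {τ : F →+* ℂ} {E : Ext} {χ : G E → ℂ} {v v' : ℂ}
    (h : IsQuotient M τ χ v) (h' : IsQuotient M τ χ v') : v = v' := by
  obtain ⟨a, b, l, e1, e2, hl, rfl⟩ := h
  obtain ⟨a', b', l', e1', e2', hl', rfl⟩ := h'
  rw [e1] at e1'
  rw [e2] at e2'
  have e3 : a = a' := by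
    have : (a : ℂ) = a' := by linear_combination (e1' + e2') / 2
    exact_mod_cast this
  have e4 : b = b' := by
    have : (b : ℂ) = b' := by linear_combination (e1' - e2') / 2
    exact_mod_cast this
  rw [e3, e4, HasSum.unique hl hl']

lemma exists_quotient (M : Motive F) (τ : F →+* ℂ) {E : Ext} {χ : G E → ℂ} (hχ : IsChr χ) :
    ∃ v, IsQuotient M τ χ v := by
  obtain ⟨a, b, h1, h2⟩ := exists_ab E.K E.L (isChr_iff.mp hχ)
  exact ⟨_, a, b, _, h1, (conjTrace_eq χ).trans h2, twist_hasSum (M.dat τ) χ, rfl⟩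

lemma deligne_iff (M : Motive F) {E : Ext} {χ : G E → ℂ} (hχ : IsChr χ) :
    Deligne M χ ↔ ∀ (τ : F →+* ℂ) (σ : ℂ ≃+* ℂ),
      pval (dInv (M.dat τ) (M.dat ((σ : ℂ →+* ℂ).comp τ)) σ) ⟨E, χ⟩ = 1 := by
  refine forall_congr' fun τ => forall_congr' fun σ => ?_
  change _ ↔ (dInv (M.dat τ) (M.dat ((σ : ℂ →+* ℂ).comp τ)) σ).val E.K E.L χ = 1
  rw [defect_iff hχ]
  have hσ1 : artinRank (fun g => σ (χ g)) = σ (artinRank χ) := by
    rw [artinRank, artinRank, map_mul, map_natCast]
  have hσ2 : conjTrace (fun g => σ (χ g)) = σ (conjTrace χ) := conjTrace_sigma σ χ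
  constructor
  · rintro ⟨v, v', n, ⟨a, b, l, e1, e2, hl, rfl⟩, ⟨a', b', l', e1', e2', hl', rfl⟩, hn, h⟩
    rw [hσ1, e1, map_add, map_natCast, map_natCast] at e1'
    rw [hσ2, e2, map_sub, map_natCast, map_natCast] at e2'
    have e3 : a = a' := by
      have : (a : ℂ) = a' := by linear_combination (e1' + e2') / 2
      exact_mod_cast this
    have e4 : b = b' := by
      have : (b : ℂ) = b' := by linear_combination (e1' - e2') / 2
      exact_mod_cast this
    subst e3 e4
    exact ⟨a, b, n, l, l', hn, e1, e2, hl, hl', h⟩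
  · rintro ⟨a, b, n, l, l', hn, e1, e2, hl, hl', h⟩
    refine ⟨_, _, n, ⟨a, b, l, e1, e2, hl, rfl⟩, ⟨a, b, l', ?_, ?_, hl', rfl⟩, hn, h⟩
    · rw [hσ1, e1, map_add, map_natCast, map_natCast]
    · rw [hσ2, e2, map_sub, map_natCast, map_natCast]

/-- the relations for all invariants -/
theorem basic_rel {M : Type} [CommGroup M] (A : ST.ArtinInvariant M) {m : ℕ} (hm : m ≠ 0) {e : ℕ}
    {E : Ext} {χ : G E → ℂ} (hχ : IsChr χ)
    (N : Type) [Field N] [NumberField N] [IsGalois ℚ N] [Algebra E.L N]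
    (heN : ∀ y : N ≃ₐ[ℚ] N, y ^ e = 1) :
    ∃ n : ℕ, 0 < n ∧ ∃ (r : ℕ) (x : Fin r → Pair) (k : Fin r → ℤ),
      (∀ i, Basic m (2 * e) (x i)) ∧ pval A ⟨E, χ⟩ ^ n = ∏ i, pval A (x i) ^ k i := by
  let P : Subgroup M := Subgroup.closure {y : M | ∃ x : Pair, Basic m (2 * e) x ∧ y = pval A x}
  let B : ST.ArtinInvariant (M ⧸ sat P) := mapInv (QuotientGroup.mk' (sat P)) A
  have h1 : pval B ⟨E, χ⟩ = 1 := by
    refine basic_principle B (tf_sat P) hm (fun x hx => ?_) hχ N heN
    refine (QuotientGroup.eq_one_iff (N := sat P) _).mpr ⟨1, one_pos, ?_⟩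
    rw [pow_one]
    exact Subgroup.subset_closure ⟨x, hx, rfl⟩
  obtain ⟨n, hn, h3⟩ := (QuotientGroup.eq_one_iff (N := sat P) (pval A ⟨E, χ⟩)).mp h1
  exact ⟨n, hn, closure_form A (Basic m (2 * e)) h3⟩

/-- (1) For every motive `M` as above, every Artin character `χ` and every embedding `τ` of the
coefficients there is exactly one quotient `v(τ, χ)` of the L-value at `s₀` and the period.

(2) Let `m ≥ 1`. Let `χ` be a character of a Galois extension `L / K` of number fields, and let `N`
be a Galois extension of `ℚ` which contains `L`, with a Galois group of exponent dividing `e`. There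
are `n ≥ 1`, basic characters `ψ_i` (for `m` and `D = 2 e`) and integers `k_i` such that for all
fields of coefficients `F`, all `M` and all `τ`
`L(M_K ⊗ χ, s₀)^n = ∏ L(M_{K_i} ⊗ ψ_i, s₀)^(k_i)` (for the logarithms) and
`v(τ, χ)^n = ∏ v(τ, ψ_i)^(k_i)`.

(3) Let `m ≥ 1`. Deligne's conjecture at `s₀`, up to roots of unity, holds for `M_K ⊗ χ` for all
number fields `K` and all Artin characters `χ` of `K` if and only if it holds for the basic
characters (for `m` and `D = 0`). -/
theorem result :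
    -- (1)
    (∀ (F : Type) [Field F] (M : Motive F) (τ : F →+* ℂ) (E : Ext) (χ : G E → ℂ), IsChr χ →
      ∃! v : ℂ, IsQuotient M τ χ v) ∧
    ∀ m : ℕ, m ≠ 0 →
      -- (2)
      (∀ (E : Ext) (χ : G E → ℂ), IsChr χ → ∀ (N : Type) [Field N] [NumberField N]
        [IsGalois ℚ N] [Algebra E.L N] (e : ℕ), (∀ y : N ≃ₐ[ℚ] N, y ^ e = 1) →
        ∃ n : ℕ, 0 < n ∧ ∃ (r : ℕ) (x : Fin r → Pair) (k : Fin r → ℤ),
          (∀ i, Basic m (2 * e) (x i)) ∧
          ∀ (F : Type) [Field F] (M : Motive F) (τ : F →+* ℂ),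
            (∀ (l : ℂ) (l' : Fin r → ℂ), IsLog M τ χ l → (∀ i, IsLog M τ (x i).2 (l' i)) →
              n * l = ∑ i, k i * l' i) ∧
            (∀ (v : ℂ) (v' : Fin r → ℂ), IsQuotient M τ χ v →
              (∀ i, IsQuotient M τ (x i).2 (v' i)) → v ^ n = ∏ i, v' i ^ k i)) ∧
      -- (3)
      (∀ (F : Type) [Field F] (M : Motive F),
        (∀ (E : Ext) (χ : G E → ℂ), IsChr χ → Deligne M χ) ↔
          (∀ x : Pair, Basic m 0 x → Deligne M x.2)) := by
  refine ⟨fun F _ M τ E χ hχ => ?_, fun m hm => ⟨?_, ?_⟩⟩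
  · obtain ⟨v, hv⟩ := exists_quotient M τ hχ
    exact ⟨v, hv, fun v' hv' => hv'.unique hv⟩
  · intro E χ hχ N _ _ _ _ e heN
    obtain ⟨n, hn, r, x, k, hx, h⟩ := basic_rel univInv hm hχ N heN
    exact ⟨n, hn, r, x, k, hx, fun F _ M τ =>
      ⟨fun l l' hl hl' => rel_log (M.dat τ) h hl hl',
        fun v v' hv hv' => rel_quot (M.dat τ) h hv hv'⟩⟩
  · intro F _ M
    constructor
    · intro h x hx
      exact h x.1 x.2 hx.isChr
    · intro h E χ hχ
      rw [deligne_iff M hχ]
      intro τ σ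
      obtain ⟨N, i1, i2, i3, i4⟩ := Pool.Agent.K4H34.ST.exists_gal E.L
      refine basic_principle (e := 0) _ tf_quot hm (fun x hx => ?_) hχ N (fun y => pow_zero y)
      exact (deligne_iff M hx.isChr).mp (h x hx) τ σ

end Pool.Agent.Results.MP_cd171c_nt.ClassGroupTwists
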