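import Mathlib
import Pool.Agent.W2helper76.DP.Rel
import Pool.Agent.W2helper76.DP.LinkGal
import Pool.Agent.W2helper73.SO.Fin

/-!
# Deligne's conjecture for the Artin twists of a motive of odd weight with coefficients: exact base
change along the extensions with one real place over each real place

The twist of the motive `M` over `ℚ` with coefficients in `F` by an Artin character `χ` of a Galois
extension `L / K` of number fields is `R_{K/ℚ}(M_K ⊗ χ)`. The weight `w` is odd, so `F⁺ = F⁻`, and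
the twists have the same critical integers `s₀` as `M`; here `s₀ > (w + 1) / 2`, so the Euler
products converge at `s₀`. The other definitions are in `Pool.Agent.W2helper76.DP.Def`,
`Pool.Agent.W2helper76.DP.DefGal`, `Pool.Agent.W2helper73.SO` (`OneReal`, `res`) and
`Pool.Agent.K4H74.SC.Core`.
-/

set_option autoImplicit false

namespace Pool.Agent.Results.MP_cd171c_nt.ExactBaseChange

open NumberField Pool.Agent.K4H74.SK Pool.Agent.W2helper76.DP Pool.Agent.K4H34.AL
  Pool.Agent.W2helper73.SO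

/-- The data of a motive `M` over `ℚ` of odd weight with coefficients in the number field `F` which
enter Deligne's conjecture for its Artin twists at the critical integer `s₀`, which is larger than
the centre `(w + 1) / 2`: the weight, half of the rank over `F`, a finite set which contains the
primes of bad reduction, the eigenvalues of the (geometric) Frobenius at the other primes, and
Deligne's periods `c⁺(M, s₀)` and `c⁻(M, s₀)`, the last three for every complex embedding `τ` of
`F`. -/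
structure Motive (F : Type) [Field F] where
  /-- the weight -/
  weight : ℤ
  /-- half of the rank -/
  r : ℕ
  /-- the critical integer -/
  s₀ : ℤ
  /-- the bad primes -/
  bad : Finset ℕ
  /-- the eigenvalues of the Frobenius at `p` -/
  eig : (F →+* ℂ) → ℕ → Fin (2 * r) → ℂ
  /-- the period `c⁺(M, s₀)` -/
  cplus : (F →+* ℂ) → ℂ
  /-- the period `c⁻(M, s₀)` -/
  cminus : (F →+* ℂ) → ℂ
  odd_weight : Odd weight
  right : weight + 1 < 2 * s₀
  norm_eig : ∀ (τ : F →+* ℂ) (p : ℕ), p.Prime → p ∉ bad → ∀ i,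
    ‖eig τ p i‖ = (p : ℝ) ^ ((weight : ℝ) / 2)
  cplus_ne : ∀ τ, cplus τ ≠ 0
  cminus_ne : ∀ τ, cminus τ ≠ 0

variable {F : Type} [Field F]

/-- `l` is the logarithm of the L-function of `M_K ⊗ χ` (without the Euler factors over the bad
primes) for the embedding `τ` of the coefficients, at the point `s`. -/
def IsLog (M : Motive F) (τ : F →+* ℂ) {E : Ext} (χ : G E → ℂ) (s l : ℂ) : Prop :=
  HasSum (twistTerm (frobTrace M.bad (M.eig τ)) χ s) l

/-- `v` is, for the embedding `τ` of the coefficients, the quotient of the value at `s₀` of the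
L-function of `M_K ⊗ χ` (without the Euler factors over the bad primes) and
`c⁺(M, s₀)^a c⁻(M, s₀)^b`, where `a` and `b` are the multiplicities of the eigenvalues `1` and `-1`
of the complex conjugation on the Betti realisation of the Artin motive `R_{K/ℚ}[χ]`. Deligne's
period of `R_{K/ℚ}(M_K ⊗ χ)` is the product of this number and the `r`-th power of the period
`δ(χ)` of the determinant of `R_{K/ℚ}[χ]` (for the Dirichlet characters this is the Gauss sum). -/
def IsQuotient (M : Motive F) (τ : F →+* ℂ) {E : Ext} (χ : G E → ℂ) (v : ℂ) : Prop :=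
  ∃ (a b : ℕ) (l : ℂ), artinRank χ = a + b ∧ conjTrace χ = a - b ∧ IsLog M τ χ M.s₀ l ∧
    v = Complex.exp l / (M.cplus τ ^ a * M.cminus τ ^ b)

/-- Deligne's conjecture for `M_K ⊗ χ` at `s₀` (with coefficients in `F(χ)`): for the quotients
`v(τ, χ)` of the L-value and `c⁺^a c⁻^b`, and for every automorphism `σ` of `ℂ`,
`σ(v(τ, χ)) det(σ | R_{K/ℚ}[σ χ])^r = v(σ τ, σ χ)`. Here `det(σ | R_{K/ℚ}[χ])` is the determinant of
`σ` in the representation of the Galois group of `ℚ` induced from the one with the character `χ`.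
(The L-functions are those of Artin's convention, `χ` is evaluated at the arithmetic Frobenius
elements; so the Betti realisation of the Artin motive with this L-function is the dual
representation, and `σ(δ(χ)) det(σ | R_{K/ℚ}[σ χ]) = δ(σ χ)`, like for the Gauss sums of the
Dirichlet characters. So this property says that the quotients of the L-values and Deligne's periods
are the conjugates of one element of the field of coefficients.) -/
def Deligne (M : Motive F) {E : Ext} (χ : G E → ℂ) : Prop :=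
  ∀ (τ : F →+* ℂ) (σ : ℂ ≃+* ℂ), ∃ v v' d : ℂ, IsQuotient M τ χ v ∧
    IsQuotient M ((σ : ℂ →+* ℂ).comp τ) (fun g => σ (χ g)) v' ∧
    IsArtinDet σ (fun g => σ (χ g)) d ∧ σ v * d ^ M.r = v'

/-- the data of the motive -/
noncomputable def Motive.dat (M : Motive F) (τ : F →+* ℂ) (s : ℂ)
    (hs : 1 + (M.weight : ℝ) / 2 < s.re) : Dat where
  W := frobTrace M.bad (M.eig τ)
  w := (M.weight : ℝ) / 2
  B := (2 * M.r : ℕ)
  s := s
  hB := Nat.cast_nonneg _
  hW := frobTrace_bound (M.norm_eig τ)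
  hs := by linarith
  cp := Units.mk0 (M.cplus τ) (M.cplus_ne τ)
  cm := Units.mk0 (M.cminus τ) (M.cminus_ne τ)

lemma Motive.s_re (M : Motive F) : 1 + (M.weight : ℝ) / 2 < ((M.s₀ : ℂ)).re := by
  obtain ⟨k, hk⟩ := M.odd_weight
  have h1 := M.right
  have h2 : M.weight + 3 ≤ 2 * M.s₀ := by omega
  have h3 : (M.weight : ℝ) + 3 ≤ 2 * (M.s₀ : ℝ) := by exact_mod_cast h2
  rw [Complex.intCast_re]
  linarith

/-- the data at the point `s₀` -/
noncomputable abbrev Motive.dat0 (M : Motive F) (τ : F →+* ℂ) : Dat := M.dat τ M.s₀ M.s_re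

/-- a reformulation -/
lemma deligne_iff (M : Motive F) {E : Ext} {χ : G E → ℂ} (hχ : IsChr χ) :
    Deligne M χ ↔ ∀ (τ : F →+* ℂ) (σ : ℂ ≃+* ℂ),
      pval (eInv (M.dat0 τ) (M.dat0 ((σ : ℂ →+* ℂ).comp τ)) M.r σ) ⟨E, χ⟩ = 1 := by
  refine forall_congr' fun τ => forall_congr' fun σ => ?_
  have hex := exact_iff (D := M.dat0 τ) (D' := M.dat0 ((σ : ℂ →+* ℂ).comp τ)) (r := M.r) (σ := σ)
    hχ 1
  simp only [pow_one] at hex
  change _ ↔ (eInv (M.dat0 τ) (M.dat0 ((σ : ℂ →+* ℂ).comp τ)) M.r σ).val E.K E.L χ = 1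
  rw [hex]
  have hσ1 : artinRank (fun g => σ (χ g)) = σ (artinRank χ) := by
    rw [artinRank, artinRank, map_mul, map_natCast]
  have hσ2 : conjTrace (fun g => σ (χ g)) = σ (conjTrace χ) := conjTrace_sigma σ χ
  constructor
  · rintro ⟨v, v', d, ⟨a, b, l, e1, e2, hl, rfl⟩, ⟨a', b', l', e1', e2', hl', rfl⟩, hd, h⟩
    rw [hσ1, e1, map_add, map_natCast, map_natCast] at e1'
    rw [hσ2, e2, map_sub, map_natCast, map_natCast] at e2'
    have e3 : a = a' := by
      have : (a : ℂ) = a' := by linear_combination (e1' + e2') / 2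
      exact_mod_cast this
    have e4 : b = b' := by
      have : (b : ℂ) = b' := by linear_combination (e1' - e2') / 2
      exact_mod_cast this
    subst e3 e4
    exact ⟨a, b, l, l', d, e1, e2, hl, hl', hd, h⟩
  · rintro ⟨a, b, l, l', d, e1, e2, hl, hl', hd, h⟩
    refine ⟨_, _, d, ⟨a, b, l, e1, e2, hl, rfl⟩, ⟨a, b, l', ?_, ?_, hl', rfl⟩, hd, h⟩
    · rw [hσ1, e1, map_add, map_natCast, map_natCast]
    · rw [hσ2, e2, map_sub, map_natCast, map_natCast]

/-- triviality over the totally complex fields -/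
lemma triv_of {M : Type} [CommGroup M] (A : Pool.Agent.K4H74.ST.ArtinInvariant M)
    (h : ∀ x : Pair, CxBasic x → pval A x = 1) : Pool.Agent.K4H74.ST.TrivComplex A :=
  fun K L _ _ _ _ _ _ hK ψ hψ => h ⟨⟨K, L⟩, lin (E := ⟨K, L⟩) ψ⟩ ⟨⟨K, L⟩, ψ, hK, hψ, rfl⟩

/-- the exact relation for all invariants -/
theorem exact_rel {M : Type} [CommGroup M] (A : Pool.Agent.K4H74.ST.ArtinInvariant M)
    (k K N : Type) [Field k] [NumberField k] [Field K] [NumberField K] [Field N]
    [NumberField N] [Algebra k K] [Algebra K N] [Algebra k N] [IsScalarTower k K N]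
    [IsGalois k N] [IsGalois K N] (χ : G ⟨k, N⟩ → ℂ) (hK : OneReal k K) (hχ : IsChr χ) :
    ∃ (m : ℕ) (x : Fin m → Pair) (e : Fin m → ℤ), (∀ i, CxBasic (x i)) ∧
      pval A ⟨⟨K, N⟩, res k K N χ⟩ ^ 1 = ∏ i : Fin (m + 1),
        pval A ((Fin.cons (α := fun _ => Pair) (⟨⟨k, N⟩, χ⟩ : Pair) x :
          Fin (m + 1) → Pair) i) ^
          ((Fin.cons (α := fun _ => ℤ) (1 : ℤ) e : Fin (m + 1) → ℤ) i) := by
  let P : Subgroup M := Subgroup.closure {y | ∃ x : Pair, CxBasic x ∧ y = pval A x}
  let B : Pool.Agent.K4H74.ST.ArtinInvariant (M ⧸ P) := mapInv (QuotientGroup.mk' P) A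
  have h3 := base_change (A := B) (triv_of B fun x hx =>
    (QuotientGroup.eq_one_iff (N := P) _).mpr (Subgroup.subset_closure ⟨x, hx, rfl⟩)) hK
    (k := k) (K := K) (N := N) (isChr_iff.mp hχ)
  have h4 : (pval A ⟨⟨k, N⟩, χ⟩)⁻¹ * pval A ⟨⟨K, N⟩, res k K N χ⟩ ∈ P :=
    QuotientGroup.eq.mp h3.symm
  obtain ⟨m, x, e, hx, h5⟩ := closure_form A CxBasic h4
  refine ⟨m, x, e, hx, ?_⟩
  rw [Fin.prod_univ_succ]
  simp only [Fin.cons_zero, Fin.cons_succ]
  rw [← h5, zpow_one, pow_one, mul_inv_cancel_left]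

/-- a field with exactly one real embedding -/
lemma oneReal_rat {K : Type} [Field K] [NumberField K]
    (hK : ∃! φ : K →+* ℂ, ComplexEmbedding.IsReal φ) : OneReal ℚ K := by
  obtain ⟨φ, h1, h2⟩ := hK
  intro ψ _
  exact ⟨φ, ⟨Subsingleton.elim _ _, h1⟩, fun φ' h' => h2 φ' h'.2⟩

/-- Let `M` be a motive as above. Let `N / k` be a Galois extension of number fields, let `K` be an
intermediate field such that exactly one real place of `K` lies over every real place of `k`, let
`χ` be a character of `Gal(N / k)` and `Res χ` its restriction to `Gal(N / K)`.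

(1) There are faithful linear characters `ψ_i` of extensions of totally complex fields `K_i` and
integers `k_i` such that for all fields of coefficients, all `M` and all embeddings
`L(M_K ⊗ Res χ, s) = L(M_k ⊗ χ, s) ∏ L(M_{K_i} ⊗ ψ_i, s)^(k_i)` (for the logarithms,
`Re s > w / 2 + 1`), and `v(τ, Res χ) = v(τ, χ) ∏ v(τ, ψ_i)^(k_i)`.

(2) Suppose that Deligne's conjecture holds at `s₀` for `M_E ⊗ ψ` for all totally complex fields `E`
and all faithful linear characters `ψ`. Then it holds for `M_K ⊗ Res χ` if and only if it holds for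
`M_k ⊗ χ`.

(3) Under the same hypothesis it holds for `M` over `ℚ` if and only if it holds for `M_K` for one
number field `K` with exactly one real place, if and only if it holds for `M_K` for all number
fields `K` with exactly one real place. -/
theorem result :
    (∀ (k K N : Type) [Field k] [NumberField k] [Field K] [NumberField K] [Field N]
      [NumberField N] [Algebra k K] [Algebra K N] [Algebra k N] [IsScalarTower k K N]
      [IsGalois k N] [IsGalois K N] (χ : G ⟨k, N⟩ → ℂ), OneReal k K → IsChr χ →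
      -- (1)
      (∃ (m : ℕ) (x : Fin m → Pair) (e : Fin m → ℤ), (∀ i, CxBasic (x i)) ∧
        ∀ (F : Type) [Field F] (M : Motive F) (τ : F →+* ℂ),
          (∀ s : ℂ, 1 + (M.weight : ℝ) / 2 < s.re → ∀ (l l₀ : ℂ) (l' : Fin m → ℂ),
            IsLog M τ (E := ⟨K, N⟩) (res k K N χ) s l → IsLog M τ (E := ⟨k, N⟩) χ s l₀ →
            (∀ i, IsLog M τ (x i).2 s (l' i)) → l = l₀ + ∑ i, e i * l' i) ∧
          (∀ (v v₀ : ℂ) (v' : Fin m → ℂ), IsQuotient M τ (E := ⟨K, N⟩) (res k K N χ) v →
            IsQuotient M τ (E := ⟨k, N⟩) χ v₀ → (∀ i, IsQuotient M τ (x i).2 (v' i)) →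
            v = v₀ * ∏ i, v' i ^ e i)) ∧
      -- (2)
      ∀ (F : Type) [Field F] (M : Motive F), (∀ x : Pair, CxBasic x → Deligne M x.2) →
        (Deligne M (E := ⟨K, N⟩) (res k K N χ) ↔ Deligne M (E := ⟨k, N⟩) χ)) ∧
    -- (3)
    (∀ (F : Type) [Field F] (M : Motive F), (∀ x : Pair, CxBasic x → Deligne M x.2) →
      ∀ (K : Type) [Field K] [NumberField K], (∃! φ : K →+* ℂ, ComplexEmbedding.IsReal φ) →
        (Deligne M (E := ⟨K, K⟩) (fun _ => 1) ↔ Deligne M (E := ⟨ℚ, ℚ⟩) (fun _ => 1))) := by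
  have h2 : ∀ (k K N : Type) [Field k] [NumberField k] [Field K] [NumberField K] [Field N]
      [NumberField N] [Algebra k K] [Algebra K N] [Algebra k N] [IsScalarTower k K N]
      [IsGalois k N] [IsGalois K N] (χ : G ⟨k, N⟩ → ℂ), OneReal k K → IsChr χ →
      ∀ (F : Type) [Field F] (M : Motive F), (∀ x : Pair, CxBasic x → Deligne M x.2) →
        (Deligne M (E := ⟨K, N⟩) (res k K N χ) ↔ Deligne M (E := ⟨k, N⟩) χ) := by
    intro k K N _ _ _ _ _ _ _ _ _ _ _ _ χ hK hχ F _ M hC
    rw [deligne_iff M (isChr_res χ hχ), deligne_iff M hχ]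
    refine forall_congr' fun τ => forall_congr' fun σ => ?_
    have h3 := base_change (A := eInv (M.dat0 τ) (M.dat0 ((σ : ℂ →+* ℂ).comp τ)) M.r σ)
      (triv_of _ fun x hx => ?_) hK (k := k) (K := K) (N := N) (isChr_iff.mp hχ)
    · change (eInv (M.dat0 τ) (M.dat0 ((σ : ℂ →+* ℂ).comp τ)) M.r σ).val K N _ = 1 ↔
        (eInv (M.dat0 τ) (M.dat0 ((σ : ℂ →+* ℂ).comp τ)) M.r σ).val k N _ = 1
      exact ⟨fun h => h3.symm.trans h, fun h => h3.trans h⟩
    · obtain ⟨E, ψ, -, -, rfl⟩ := id hx
      exact (deligne_iff M (isChr_lin ψ)).mp (hC _ hx) τ σ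
  refine ⟨?_, ?_⟩
  · intro k K N _ _ _ _ _ _ _ _ _ _ _ _ χ hK hχ
    refine ⟨?_, fun F _ M hC => h2 k K N χ hK hχ F M hC⟩
    obtain ⟨m, x, e, hx, h6⟩ := exact_rel univInv k K N χ hK hχ
    refine ⟨m, x, e, hx, fun F _ M τ => ⟨?_, ?_⟩⟩
    · intro s hs l l₀ l' hl hl₀ hl'
      have h7 := rel_log (M.dat τ s hs) h6 (l' := (Fin.cons (α := fun _ => ℂ) l₀ l' :
        Fin (m + 1) → ℂ)) hl (fun i => by
          refine Fin.cases ?_ (fun j => ?_) i
          · exact hl₀
          · exact hl' j)
      rw [Fin.sum_univ_succ] at h7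
      simp only [Fin.cons_zero, Fin.cons_succ, Nat.cast_one, Int.cast_one, one_mul] at h7
      exact h7
    · intro v v₀ v' hv hv₀ hv'
      have h7 := rel_quot (M.dat0 τ) h6 (v' := (Fin.cons (α := fun _ => ℂ) v₀ v' :
        Fin (m + 1) → ℂ)) hv (fun i => by
          refine Fin.cases ?_ (fun j => ?_) i
          · exact hv₀
          · exact hv' j)
      rw [Fin.prod_univ_succ] at h7
      simp only [Fin.cons_zero, Fin.cons_succ, pow_one, zpow_one] at h7
      exact h7
  · intro F _ M hC K _ _ hK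
    obtain ⟨N, i1, i2, i3, i4⟩ := Pool.Agent.K4H34.ST.exists_gal K
    have hgal : IsGalois K N := IsGalois.tower_top_of_isGalois ℚ K N
    have h3 := h2 ℚ K N (fun _ => 1) (oneReal_rat hK) (Pool.Agent.W2helper76.DP.isChr_one _) F M hC
    have h4 : ∀ (k : Type) [Field k] [NumberField k] [Algebra k N] [IsGalois k N],
        (Deligne M (E := ⟨k, N⟩) (fun _ => 1) ↔ Deligne M (E := ⟨k, k⟩) (fun _ => 1)) := by
      intro k _ _ _ _
      rw [deligne_iff M (Pool.Agent.W2helper76.DP.isChr_one _),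
        deligne_iff M (Pool.Agent.W2helper76.DP.isChr_one _)]
      refine forall_congr' fun τ => forall_congr' fun σ => ?_
      have h5 := val_triv (eInv (M.dat0 τ) (M.dat0 ((σ : ℂ →+* ℂ).comp τ)) M.r σ) k N
      exact ⟨fun h => h5.symm.trans h, fun h => h5.trans h⟩
    rw [← h4 K, ← h4 ℚ]
    exact h3

end Pool.Agent.Results.MP_cd171c_nt.ExactBaseChange
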